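import Pool.Agent.BE01.Stmts

/-!
# Squad BE01 (MP_be01ff_an), module POW: the powers of a curve. See /team-store/PAPER_BE01.md
-/

namespace Pool.Agent.BE01.H11

open Set Filter Topology
open scoped InnerProductSpace

noncomputable section

section

variable {X Y H : Type} [NormedCommRing X] [NormedAlgebra ℝ X] [NormedAddCommGroup Y]
  [NormedSpace ℝ Y] [NormedAddCommGroup H] [InnerProductSpace ℝ H] (A : Alg X Y H)

/-- Limits of values of linear maps. -/
theorem tclm {E F : Type} [NormedAddCommGroup E] [NormedSpace ℝ E] [NormedAddCommGroup F]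
    [NormedSpace ℝ F] {l : Filter ℝ} {f : ℝ → E →L[ℝ] F} {g : ℝ → E} {f0 : E →L[ℝ] F} {g0 : E}
    (hf : Tendsto f l (𝓝 f0)) (hg : Tendsto g l (𝓝 g0)) :
    Tendsto (fun s => f s (g s)) l (𝓝 (f0 g0)) :=
  ((isBoundedBilinearMap_apply (𝕜 := ℝ) (E := E) (F := F)).continuous.tendsto (f0, g0)).comp
    (hf.prodMk_nhds hg)

/-- The derivative, in `Y`, of a product of two curves that are only continuous in `X`. -/
theorem dY {z x : ℝ → X} {z1 y : Y} {t : ℝ} (hx : ContinuousAt x t)
    (hz' : HasDerivAt (fun s => A.i (z s)) z1 t) (hx' : HasDerivAt (fun s => A.i (x s)) y t) :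
    HasDerivAt (fun s => A.i (z s * x s)) (A.mY (x t) z1 + A.mY (z t) y) t := by
  rw [hasDerivAt_iff_tendsto_slope] at *
  have h0 : Tendsto (fun s => A.mY (x s)) (𝓝[≠] t) (𝓝 (A.mY (x t))) :=
    ((A.mY.continuous.tendsto _).comp hx).mono_left nhdsWithin_le_nhds
  have h1 : Tendsto (fun s => A.mY (x s) (slope (fun s => A.i (z s)) t s)) (𝓝[≠] t)
      (𝓝 (A.mY (x t) z1)) := tclm h0 hz'
  have h2 : Tendsto (fun s => A.mY (z t) (slope (fun s => A.i (x s)) t s)) (𝓝[≠] t)
      (𝓝 (A.mY (z t) y)) := ((A.mY (z t)).continuous.tendsto _).comp hx'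
  refine (h1.add h2).congr fun s => ?_
  rw [slope_def_module, slope_def_module, slope_def_module, map_smul, map_smul, ← smul_add,
    map_sub, map_sub, A.mY_i, A.mY_i, A.mY_i, A.mY_i]
  congr 1
  rw [mul_comm (x s) (z s), mul_comm (x s) (z t)]
  abel

/-- The derivative, in `H`, of `mY z y`. -/
theorem dH {z : ℝ → X} {y : ℝ → Y} {z1 : Y} {h : H} {t : ℝ} (hz : ContinuousAt z t)
    (hz' : HasDerivAt (fun s => A.i (z s)) z1 t) (hy' : HasDerivAt (fun s => A.j (y s)) h t) :
    HasDerivAt (fun s => A.j (A.mY (z s) (y s))) (A.mH (z t) h + A.B z1 (y t)) t := by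
  rw [hasDerivAt_iff_tendsto_slope] at *
  have h0 : Tendsto (fun s => A.mH (z s)) (𝓝[≠] t) (𝓝 (A.mH (z t))) :=
    ((A.mH.continuous.tendsto _).comp hz).mono_left nhdsWithin_le_nhds
  have h1 : Tendsto (fun s => A.mH (z s) (slope (fun s => A.j (y s)) t s)) (𝓝[≠] t)
      (𝓝 (A.mH (z t) h)) := tclm h0 hy'
  have h2 : Tendsto (fun s => A.B (slope (fun s => A.i (z s)) t s) (y t)) (𝓝[≠] t)
      (𝓝 (A.B z1 (y t))) := ((A.B.flip (y t)).continuous.tendsto _).comp hz'
  refine (h1.add h2).congr fun s => ?_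
  rw [slope_def_module, slope_def_module, slope_def_module, map_smul, map_smul,
    smul_apply, ← smul_add, ← map_sub A.i, A.B_i, A.j_mY, A.j_mY, map_sub,
    map_sub, sub_apply]
  congr 1
  abel

/-- The derivative of `x ^ n` in `Y`. -/
theorem dpow {x : ℝ → X} {y : Y} {t : ℝ} (hx : ContinuousAt x t)
    (hx' : HasDerivAt (fun s => A.i (x s)) y t) (n : ℕ) :
    HasDerivAt (fun s => A.i (x s ^ n)) (pw1 A n (x t) y) t := by
  induction n with
  | zero =>
    have h0 : pw1 A 0 (x t) y = 0 := by simp [pw1]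
    rw [h0]
    simpa using hasDerivAt_const t (A.i 1)
  | succ n ih =>
    have h1 := dY A hx ih hx'
    have h2 : A.mY (x t) (pw1 A n (x t) y) + A.mY (x t ^ n) y = pw1 A (n + 1) (x t) y := by
      cases n with
      | zero => simp [pw1]
      | succ m =>
        simp only [pw1, Nat.add_sub_cancel, map_smul]
        rw [← A.mul_mY, ← pow_succ' (x t) m]
        push_cast
        module
    rw [h2] at h1
    simpa [pow_succ] using h1

/-- The derivative of `pw1` in `H`. -/
theorem dpw1 {x : ℝ → X} {y : ℝ → Y} {h : H} {t : ℝ} (hx : ContinuousAt x t)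
    (hx' : HasDerivAt (fun s => A.i (x s)) (y t) t)
    (hy' : HasDerivAt (fun s => A.j (y s)) h t) (n : ℕ) :
    HasDerivAt (fun s => A.j (pw1 A n (x s) (y s))) (pw2 A n (x t) (y t) h) t := by
  have h0 : HasDerivAt (fun s => A.j (A.mY (x s ^ (n - 1)) (y s)))
      (A.mH (x t ^ (n - 1)) h + A.B (pw1 A (n - 1) (x t) (y t)) (y t)) t :=
    dH A (hx.pow (n - 1)) (dpow A hx hx' (n - 1)) hy'
  have h1 : HasDerivAt (fun s => (n : ℝ) • A.j (A.mY (x s ^ (n - 1)) (y s)))
      ((n : ℝ) • (A.mH (x t ^ (n - 1)) h + A.B (pw1 A (n - 1) (x t) (y t)) (y t))) t :=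
    h0.const_smul (n : ℝ)
  have h2 : (n : ℝ) • (A.mH (x t ^ (n - 1)) h + A.B (pw1 A (n - 1) (x t) (y t)) (y t)) =
      pw2 A n (x t) (y t) h := by
    cases n with
    | zero => simp [pw2]
    | succ m =>
      simp only [pw1, pw2, Nat.add_sub_cancel, map_smul, smul_apply]
      rw [A.B_mY, show m + 1 - 2 = m - 1 by omega]
      push_cast
      module
  rw [h2] at h1
  have h3 : (fun s => A.j (pw1 A n (x s) (y s))) =
      fun s => (n : ℝ) • A.j (A.mY (x s ^ (n - 1)) (y s)) := by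
    funext s
    simp only [pw1, map_smul]
  rw [h3]
  exact h1

end

/-- POW. -/
theorem pow_ : PowStmt := by
  intro X Y H _ _ _ _ _ _ A t0 x y h n hc
  obtain ⟨cx, cy, ch, dx, dy⟩ := hc
  have hn : ∀ {t : ℝ}, t > t0 → Ioi t0 ∈ 𝓝 t := fun ht => Ioi_mem_nhds ht
  have hp : ∀ k : ℕ, ContinuousOn (fun t => x t ^ k) (Ioi t0) := fun k => cx.pow k
  refine ⟨hp n, ?_, ?_, fun t ht => dpow A (cx.continuousAt (hn ht)) (dx t ht) n,
    fun t ht => dpw1 A (cx.continuousAt (hn ht)) (dx t ht) (dy t ht) n⟩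
  · exact ((A.mY.continuous.comp_continuousOn (hp (n - 1))).clm_apply cy).const_smul (n : ℝ)
  · refine ((((A.mH.continuous.comp_continuousOn (hp (n - 1))).clm_apply ch)).const_smul
      (n : ℝ)).add ((((A.mH.continuous.comp_continuousOn (hp (n - 2))).clm_apply
      ((A.B.continuous.comp_continuousOn cy).clm_apply cy))).const_smul ((n : ℝ) * (n - 1)))

end

end Pool.Agent.BE01.H11
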